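import Pool.Agent.H88.MCR.Stmts

set_option autoImplicit false

namespace Pool.MCR

namespace CLAaux

variable {L : Type} [LinearOrder L]

theorem arcs_cc {M : Type} (s : Bool) (a b : M) (t : List M) :
    arcs s (a :: b :: t) = (s, a, b) :: arcs (!s) (b :: t) := by
  rw [arcs]

theorem arcs_one {M : Type} (s : Bool) (a : M) : arcs s [a] = [] := by
  rw [arcs]

theorem sgn (s : Bool) : (if s = true then (1 : ℤ) else -1) = (if (!s) = true then (-1 : ℤ) else 1) := by
  cases s <;> rfl

theorem tail (D : Diag L) (w x : ℕ) (r : ℕ → ℤ) (l : List L) :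
    ∀ (s : Bool) (c : L), c ≠ D.pos w → (∀ d ∈ l, d ≠ D.pos w ∧ d ≠ D.pos x) →
      arcs s (lp c (if s = true then (-1 : ℤ) else 1) :: (shift s l ++ [lp (D.pos x) 0])) =
        (arcs s (c :: (l ++ [D.pos x]))).map (la D w r x) := by
  induction l with
  | nil =>
    intro s c hc _
    simp only [shift, List.nil_append]
    rw [arcs_cc, arcs_one, arcs_cc, arcs_one]
    simp [la, hc]
  | cons d l ih =>
    intro s c hc hl
    have hd := hl d (List.mem_cons_self ..)
    simp only [shift, List.cons_append]
    rw [arcs_cc, arcs_cc, List.map_cons, sgn, ih (!s) d hd.1 (fun e he => hl e (List.mem_cons_of_mem _ he))]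
    congr 1
    simp only [la, hc, hd.2, if_false]
    rw [← sgn]

theorem head (D : Diag L) (w x : ℕ) (r : ℕ → ℤ) (l : List L) (s : Bool)
    (hl : ∀ d ∈ l, d ≠ D.pos w ∧ d ≠ D.pos x) :
      arcs s (lp (D.pos w) (if s = true then - r x else 1) :: (shift s l ++ [lp (D.pos x) 0])) =
        (arcs s (D.pos w :: (l ++ [D.pos x]))).map (la D w r x) := by
  cases l with
  | nil =>
    simp only [shift, List.nil_append]
    rw [arcs_cc, arcs_one, arcs_cc, arcs_one]
    simp [la]
  | cons d l =>
    have hd := hl d (List.mem_cons_self ..)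
    simp only [shift, List.cons_append]
    rw [arcs_cc, arcs_cc, List.map_cons, sgn,
      tail D w x r l (!s) d hd.1 (fun e he => hl e (List.mem_cons_of_mem _ he))]
    congr 1
    simp only [la, hd.2, if_false, if_true]
    rw [← sgn]

end CLAaux

open CLAaux in
theorem cla_thm : CLA_S := by
  intro L _ n D w x r hG hw hx hxw
  have hwx : w ≠ x := fun h => hxw h.symm
  have hl : ∀ d ∈ D.E w x, d ≠ D.pos w ∧ d ≠ D.pos x := by
    intro d hd
    constructor
    · rintro rfl
      exact hG.notin w hw x hx w hw hwx hd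
    · rintro rfl
      exact hG.notin w hw x hx x hx hwx hd
  have hxn : x ≠ n := hx.ne
  have hP : (clone D n w r).P n x =
      lp (D.pos w) 1 :: (newE D w r x ++ [lp (D.pos x) 0]) := by
    unfold Diag.P clone
    simp [hxn]
  have hS : (clone D n w r).S n x = false := by
    unfold clone
    simp [hxw]
  unfold Diag.A
  rw [hP, hS]
  have h := head D w x r (D.E w x) (D.S w x) hl
  unfold Diag.P
  rw [← h]
  unfold newE
  rw [if_neg hxw]
  cases hSx : D.S w x with
  | false => simp
  | true =>
    simp only [if_true, List.cons_append, List.nil_append]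
    rw [arcs_cc]
    rfl

end Pool.MCR
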