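import Pool.Agent.H88.MCR.Stmts2

/-! Row TO2 of board mcr (MP_ffb5eb_co). -/

set_option autoImplicit false

namespace Pool.MCR

theorem TO2_aux (hTRF : TRF_S) (hDRW : DRW_S) (V : Type) [Fintype V] (F : SimpleGraph V)
    (e : V ≃ Fin (Fintype.card V)) (T : ℕ → ℕ → Prop) (L : Type) [LinearOrder L] (D : Diag L)
    (hG : Good (Fintype.card V) D) (hT : Thr T (Fintype.card V) D)
    (hadj : ∀ x y, F.Adj x y → T (e x) (e y) ∨ T (e y) (e x)) :
    ∃ Dr : Drawing (⊤ : SimpleGraph V), ∀ e ∈ F.edgeSet, ∀ f ∈ F.edgeSet,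
      (∀ v, ¬ (v ∈ e ∧ v ∈ f)) → Dr.Crosses e f := by
  obtain ⟨D', hG', hT', hgen⟩ := hTRF L (Fintype.card V) D T hG hT
  obtain ⟨Dr, hDr⟩ := hDRW V (Fintype.card V) (fun v => (e v : ℕ)) D' T
    (fun a b h => e.injective (Fin.ext h)) (fun v => (e v).2) hG' hT' hgen
  refine ⟨Dr, ?_⟩
  intro q hq q' hq' hdis
  induction q using Sym2.ind with
  | _ u v =>
    induction q' using Sym2.ind with
    | _ u' v' =>
      have hA : F.Adj u v := hq
      have hA' : F.Adj u' v' := hq'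
      refine hDr u v u' v' hA.ne hA'.ne ?_ ?_ ?_ ?_ (hadj u v hA) (hadj u' v' hA')
      · rintro rfl
        exact hdis u ⟨Sym2.mem_mk_left _ _, Sym2.mem_mk_left _ _⟩
      · rintro rfl
        exact hdis u ⟨Sym2.mem_mk_left _ _, Sym2.mem_mk_right _ _⟩
      · rintro rfl
        exact hdis v ⟨Sym2.mem_mk_right _ _, Sym2.mem_mk_left _ _⟩
      · rintro rfl
        exact hdis v ⟨Sym2.mem_mk_right _ _, Sym2.mem_mk_right _ _⟩

theorem to2_thm (hORD : ORD_S) (hMAI : MAI_S) (hOR2 : OR2_S) (hMAU : MAU_S) (hTRF : TRF_S)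
    (hDRW : DRW_S) : TO2_S := by
  intro V _ F hF
  by_cases hac : F.IsAcyclic
  · obtain ⟨e, p, hp, hadj⟩ := hORD V F hac
    obtain ⟨L, iL, D, hG, hT⟩ := hMAI p hp (Fintype.card V)
    exact TO2_aux hTRF hDRW V F e (parT p) L D hG hT hadj
  · rcases hF with hF | ⟨e0, he0, hdel, hcyc⟩
    · exact absurd hF hac
    · obtain ⟨m, e, p, hm3, hm4, hmn, hp, hadj⟩ := hOR2 V F e0 he0 hdel hac hcyc
      obtain ⟨L, iL, D, hG, hT⟩ := hMAU m p hm3 hm4 hp (Fintype.card V) hmn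
      exact TO2_aux hTRF hDRW V F e (uniT m p) L D hG hT hadj

end Pool.MCR
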